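import Pool.Agent.H27.CAL.Stmts2

/-!
# Project CAL: modules EPT and HPT (the images condition)
-/

open scoped BigOperators ENNReal Topology
open Filter

namespace CAL

section
variable {𝕜 : Type*} [RCLike 𝕜] {A : Type*} [PartialOrder A] {Y : Type*} [NormedAddCommGroup Y]
  [NormedSpace 𝕜 Y] {τ : TreeLev A}

theorem cal_ept (D : Dat 𝕜 Y τ) (hB : BIOStmt D) (hR : RNULLStmt D) : EPTStmt D := by
  intro Ch F w hw hY T x hx p
  obtain ⟨-, -, -, -, -, -, -, -, -, -, -, -, -, hrec⟩ := hB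
  have h := hrec p (τ.fin p).toFinset (D.fin p).toFinset (by simp) (by simp)
  simp only [h]
  have h1 : Tendsto (fun k => ∑ a ∈ (τ.fin p).toFinset, D.Jn a (D.dn a (T (x k)))) atTop
      (𝓝 (∑ a ∈ (τ.fin p).toFinset, (0 : D.X))) := by
    refine tendsto_finsetSum _ (fun a _ => ?_)
    have := hY ((D.dn a).comp T) x hx
    have h2 := (D.Jn a).continuous.tendsto 0
    rw [map_zero] at h2
    exact h2.comp this
  have h2 : Tendsto (fun k => ∑ γ ∈ (D.fin p).toFinset, D.ds γ (T (x k)) • D.dv γ) atTop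
      (𝓝 (∑ γ ∈ (D.fin p).toFinset, (0 : D.X))) := by
    refine tendsto_finsetSum _ (fun γ _ => ?_)
    have := hR F w hw ((D.ds γ).comp T) x hx
    have h3 := Tendsto.smul_const this (D.dv γ)
    rw [zero_smul] at h3
    exact h3
  have h3 := h1.add h2
  simpa using h3

theorem cal_hpt (D : Dat 𝕜 Y τ) (hB : BIOStmt D) (hR : RNULLStmt D) : HPTStmt D := by
  intro hA Ch F w hw T x hx p
  obtain ⟨-, -, -, -, -, -, -, -, -, -, -, -, -, hrec⟩ := hB
  have h := hrec p ∅ (D.fin p).toFinset (fun a => hA.elim a) (by simp)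
  simp only [h]
  have h2 : Tendsto (fun k => ∑ γ ∈ (D.fin p).toFinset, D.ds γ (T (x k)) • D.dv γ) atTop
      (𝓝 (∑ γ ∈ (D.fin p).toFinset, (0 : D.X))) := by
    refine tendsto_finsetSum _ (fun γ _ => ?_)
    have := hR F w hw ((D.ds γ).comp T) x hx
    have h3 := Tendsto.smul_const this (D.dv γ)
    rw [zero_smul] at h3
    exact h3
  simpa using h2

end

end CAL
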