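import Pool.Agent.H27.CAL.Stmts2

/-!
# Project CAL: modules TRUN and TRRT (forest orders)
-/

namespace CAL

theorem cal_trun (K : Type*) [TopologicalSpace K] : TRUNStmt K := by
  classical
  intro V hV hF
  choose r hr using hF
  have key : ∀ {i j : ℕ} {a : K}, a ∈ V i → a ∈ V j → i = j := by
    intro i j a hi hj
    by_contra h
    exact Set.disjoint_left.1 (hV h) hi hj
  refine ⟨fun a b => ∃ i, r i a b, ?_, ?_, ?_, ?_, ?_, ?_, ?_, ?_⟩
  · rintro a b ⟨i, hi⟩
    exact ⟨Set.mem_iUnion.2 ⟨i, ((hr i).mem a b hi).1⟩, Set.mem_iUnion.2 ⟨i, ((hr i).mem a b hi).2⟩⟩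
  · intro a ha
    obtain ⟨i, hi⟩ := Set.mem_iUnion.1 ha
    exact ⟨i, (hr i).refl a hi⟩
  · rintro a b ⟨i, hi⟩ ⟨j, hj⟩
    obtain rfl := key ((hr i).mem a b hi).1 ((hr j).mem b a hj).2
    exact (hr i).anti a b hi hj
  · rintro a b c ⟨i, hi⟩ ⟨j, hj⟩
    obtain rfl := key ((hr i).mem a b hi).2 ((hr j).mem b c hj).1
    exact ⟨i, (hr i).trans a b c hi hj⟩
  · intro a
    by_cases ha : ∃ i, a ∈ V i
    · obtain ⟨i, hi⟩ := ha
      refine ((hr i).fin a).subset ?_
      rintro b ⟨j, hj⟩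
      obtain rfl := key hi ((hr j).mem b a hj).2
      exact hj
    · convert Set.finite_empty using 1
      ext b
      simp only [Set.mem_ofPred_eq, Set.mem_empty_iff_false, iff_false]
      rintro ⟨j, hj⟩
      exact ha ⟨j, ((hr j).mem b a hj).2⟩
  · rintro a b c ⟨i, hi⟩ ⟨j, hj⟩
    obtain rfl := key ((hr i).mem b a hi).2 ((hr j).mem c a hj).2
    rcases (hr i).tot a b c hi hj with h | h
    · exact Or.inl ⟨i, h⟩
    · exact Or.inr ⟨i, h⟩
  · intro a ha
    obtain ⟨i, hi⟩ := Set.mem_iUnion.1 ha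
    convert (hr i).clop a hi using 1
    ext b
    constructor
    · rintro ⟨j, hj⟩
      obtain rfl := key hi ((hr j).mem a b hj).1
      exact hj
    · intro h
      exact ⟨i, h⟩
  · intro f hf
    obtain ⟨i, hi⟩ := (hf 0).1
    have hall : ∀ n, r i (f n) (f (n + 1)) := by
      intro n
      induction n with
      | zero => exact hi
      | succ n ih =>
        obtain ⟨j, hj⟩ := (hf (n + 1)).1
        obtain rfl := key ((hr i).mem _ _ ih).2 ((hr j).mem _ _ hj).1
        exact hj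
    exact (hr i).wf f (fun n => ⟨hall n, (hf n).2⟩)

theorem cal_trrt (K : Type*) [TopologicalSpace K] : TRRTStmt K := by
  classical
  intro V x hV hx hF
  obtain ⟨r, hr⟩ := hF
  have n1 : ∀ b, ¬ r x b := fun b h => (hr.mem x b h).1.2 rfl
  have n2 : ∀ b, ¬ r b x := fun b h => (hr.mem b x h).2.2 rfl
  refine ⟨fun a b => r a b ∨ (a = x ∧ b ∈ V), ?_, ?_, ?_, ?_, ?_, ?_, ?_, ?_⟩
  · rintro a b (h | ⟨rfl, h⟩)
    · exact ⟨(hr.mem a b h).1.1, (hr.mem a b h).2.1⟩
    · exact ⟨hx, h⟩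
  · intro a ha
    by_cases hax : a = x
    · exact Or.inr ⟨hax, ha⟩
    · exact Or.inl (hr.refl a ⟨ha, hax⟩)
  · rintro a b (h | ⟨rfl, h⟩) (h' | ⟨rfl, h'⟩)
    · exact hr.anti a b h h'
    · exact absurd h (n2 _)
    · exact absurd h' (n2 _)
    · rfl
  · rintro a b c (h | ⟨rfl, h⟩) (h' | ⟨rfl, h'⟩)
    · exact Or.inl (hr.trans a b c h h')
    · exact absurd h (n2 _)
    · exact Or.inr ⟨rfl, (hr.mem b c h').2.1⟩
    · exact Or.inr ⟨rfl, h'⟩
  · intro a
    refine ((hr.fin a).union (Set.finite_singleton x)).subset ?_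
    rintro b (h | ⟨rfl, h⟩)
    · exact Or.inl h
    · exact Or.inr rfl
  · rintro a b c (h | ⟨rfl, h⟩) (h' | ⟨rfl, h'⟩)
    · rcases hr.tot a b c h h' with h | h
      · exact Or.inl (Or.inl h)
      · exact Or.inr (Or.inl h)
    · exact Or.inr (Or.inr ⟨rfl, (hr.mem b a h).1.1⟩)
    · exact Or.inl (Or.inr ⟨rfl, (hr.mem c a h').1.1⟩)
    · exact Or.inl (Or.inr ⟨rfl, hx⟩)
  · intro a ha
    by_cases hax : a = x
    · subst hax
      convert hV using 1
      ext b
      constructor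
      · rintro (h | h)
        · exact absurd h (n1 b)
        · exact h.2
      · intro h
        exact Or.inr ⟨rfl, h⟩
    · convert hr.clop a ⟨ha, hax⟩ using 1
      ext b
      constructor
      · rintro (h | h)
        · exact h
        · exact absurd h.1 hax
      · intro h
        exact Or.inl h
  · intro f hf
    have hne : ∀ n, f (n + 1) ≠ x := by
      intro n h
      obtain ⟨h1, h2⟩ := hf n
      rcases h1 with h1 | h1
      · rw [h] at h1
        exact n2 _ h1
      · exact h2 (by rw [h1.1, h])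
    refine hr.wf (fun n => f (n + 1)) (fun n => ⟨?_, (hf (n + 1)).2⟩)
    rcases (hf (n + 1)).1 with h | h
    · exact h
    · exact absurd h.1 (hne n)

end CAL
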